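import Pool.Agent.Helper61.OD.LTO

set_option autoImplicit false

/-!
# Maps of trees, codes as trees, terms (packets MAPT, OFC, TVM, DGE)
-/

namespace Pool.Agent.Helper17.OD

open Set

universe u v w

namespace PkMAPT

open PkHLE

variable {L : Type u} {L' : Type v} {L'' : Type w}

theorem mem_D {A : Set L} {t : Tr L} : t ∈ D A ↔ t.leaves ⊆ A := Iff.rfl

theorem nat_D {A : Set L} (n : ℕ) : (Tr.nat n : Tr L) ∈ D A := by
  rw [mem_D, Tr.leaves]
  exact empty_subset _

theorem ord_D {A : Set L} {a : L} : (Tr.ord a : Tr L) ∈ D A ↔ a ∈ A := by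
  rw [mem_D, Tr.leaves, singleton_subset_iff]

theorem pr_D {A : Set L} {s t : Tr L} : (Tr.pr s t : Tr L) ∈ D A ↔ s ∈ D A ∧ t ∈ D A := by
  rw [mem_D, mem_D, mem_D, Tr.leaves, union_subset_iff]

theorem leaves_map (f : L → L') (t : Tr L) : (t.map f).leaves = f '' t.leaves := by
  induction t with
  | nat n => simp [Tr.map, Tr.leaves]
  | ord a => simp [Tr.map, Tr.leaves]
  | pr s t ih1 ih2 => simp only [Tr.map, Tr.leaves, ih1, ih2, image_union]

theorem fst_map (f : L → L') (t : Tr L) : (t.map f).fst = t.fst.map f := by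
  cases t <;> rfl

theorem snd_map (f : L → L') (t : Tr L) : (t.map f).snd = t.snd.map f := by
  cases t <;> rfl

theorem map_inj {f : L → L'} {A : Set L} (hf : InjOn f A) {s t : Tr L} (hs : s ∈ D A)
    (ht : t ∈ D A) (h : s.map f = t.map f) : s = t := by
  induction s generalizing t with
  | nat n =>
    cases t with
    | nat m => simpa [Tr.map] using h
    | ord b => simp [Tr.map] at h
    | pr t1 t2 => simp [Tr.map] at h
  | ord a =>
    cases t with
    | nat m => simp [Tr.map] at h
    | ord b =>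
      simp only [Tr.map, Tr.ord.injEq] at h
      rw [hf (ord_D.1 hs) (ord_D.1 ht) h]
    | pr t1 t2 => simp [Tr.map] at h
  | pr s1 s2 ih1 ih2 =>
    cases t with
    | nat m => simp [Tr.map] at h
    | ord b => simp [Tr.map] at h
    | pr t1 t2 =>
      simp only [Tr.map, Tr.pr.injEq] at h
      rw [ih1 (pr_D.1 hs).1 (pr_D.1 ht).1 h.1, ih2 (pr_D.1 hs).2 (pr_D.1 ht).2 h.2]

theorem map_lt [LinearOrder L] [LinearOrder L'] {f : L → L'} {A : Set L} (hf : StrictMonoOn f A)
    {s t : Tr L} (hs : s ∈ D A) (ht : t ∈ D A) : (s.map f).lt (t.map f) ↔ s.lt t := by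
  induction s generalizing t with
  | nat n => cases t <;> rfl
  | ord a =>
    cases t with
    | nat m => rfl
    | ord b => exact hf.lt_iff_lt (ord_D.1 hs) (ord_D.1 ht)
    | pr t1 t2 => rfl
  | pr s1 s2 ih1 ih2 =>
    cases t with
    | nat m => rfl
    | ord b => rfl
    | pr t1 t2 =>
      have h1 : (Tr.pr (s1.map f) (s2.map f)).height = (Tr.pr s1 s2).height := by
        simp only [Tr.height, height_map]
      have h2 : (Tr.pr (t1.map f) (t2.map f)).height = (Tr.pr t1 t2).height := by
        simp only [Tr.height, height_map]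
      have h3 : s1.map f = t1.map f ↔ s1 = t1 :=
        ⟨fun h => map_inj hf.injOn (pr_D.1 hs).1 (pr_D.1 ht).1 h, fun h => by rw [h]⟩
      simp only [Tr.map]
      rw [lt_pr_iff, lt_pr_iff, h1, h2, ih1 (pr_D.1 hs).1 (pr_D.1 ht).1,
        ih2 (pr_D.1 hs).2 (pr_D.1 ht).2, h3]

theorem map_isOrd (f : L → L') (t : Tr L) : (t.map f).IsOrd ↔ t.IsOrd := by
  cases t <;> rfl

theorem map_lmem {f : L → L'} {A : Set L} (hf : InjOn f A) {s t : Tr L} (hs : s ∈ D A)
    (ht : t ∈ D A) : (s.map f).lmem (t.map f) ↔ s.lmem t := by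
  induction t with
  | nat n => rfl
  | ord a => rfl
  | pr t1 t2 ih1 ih2 =>
    have h3 : s.map f = t1.map f ↔ s = t1 :=
      ⟨fun h => map_inj hf hs (pr_D.1 ht).1 h, fun h => by rw [h]⟩
    simp only [Tr.map, Tr.lmem]
    rw [ih2 (pr_D.1 ht).2, h3]

theorem map_map (f : L → L') (g : L' → L'') (t : Tr L) : (t.map f).map g = t.map (g ∘ f) := by
  induction t with
  | nat n => rfl
  | ord a => rfl
  | pr s t ih1 ih2 => simp only [Tr.map, ih1, ih2]

theorem map_congr {f g : L → L'} {A : Set L} (h : EqOn f g A) {t : Tr L} (ht : t ∈ D A) :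
    t.map f = t.map g := by
  induction t with
  | nat n => rfl
  | ord a => simp only [Tr.map, h (ord_D.1 ht)]
  | pr s t ih1 ih2 => simp only [Tr.map, ih1 (pr_D.1 ht).1, ih2 (pr_D.1 ht).2]

theorem map_id (t : Tr L) : t.map id = t := by
  induction t with
  | nat n => rfl
  | ord a => rfl
  | pr s t ih1 ih2 => simp only [Tr.map, ih1, ih2]

theorem map_ofCode (f : L → L') (c : Code) : (Tr.ofCode c : Tr L).map f = Tr.ofCode c := by
  unfold Tr.ofCode
  rw [map_map]
  congr 1
  funext x
  exact x.elim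

theorem leaves_ofCode (c : Code) : (Tr.ofCode c : Tr L).leaves = ∅ := by
  unfold Tr.ofCode
  rw [leaves_map, image_eq_empty]
  exact eq_empty_of_forall_notMem fun x => x.elim

theorem ofCode_inj {c d : Code} (h : (Tr.ofCode c : Tr L) = Tr.ofCode d) : c = d :=
  map_inj (A := univ) (fun x => x.elim) (subset_univ _) (subset_univ _) h

theorem ofCode_nat (n : ℕ) : (Tr.ofCode (.nat n) : Tr L) = .nat n := rfl

theorem ofCode_pr (c d : Code) :
    (Tr.ofCode (.pr c d) : Tr L) = .pr (Tr.ofCode c) (Tr.ofCode d) := rfl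

theorem ofCode_lt [LinearOrder L] (c d : Code) :
    (Tr.ofCode c : Tr L).lt (Tr.ofCode d) ↔ c.lt d :=
  map_lt (A := univ) (fun x => x.elim) (subset_univ _) (subset_univ _)

theorem exists_ofCode {t : Tr L} (ht : t.leaves = ∅) : ∃ c : Code, t = Tr.ofCode c := by
  induction t with
  | nat n => exact ⟨.nat n, rfl⟩
  | ord a => simp [Tr.leaves] at ht
  | pr s t ih1 ih2 =>
    simp only [Tr.leaves, union_empty_iff] at ht
    obtain ⟨c, hc⟩ := ih1 ht.1
    obtain ⟨d, hd⟩ := ih2 ht.2
    exact ⟨.pr c d, by rw [hc, hd]; rfl⟩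

theorem map_eq_ofCode (f : L → L') (t : Tr L) (c : Code) :
    t.map f = Tr.ofCode c ↔ t = Tr.ofCode c := by
  constructor
  · intro h
    have h1 : t.leaves = ∅ := by
      have h2 := leaves_map f t
      rw [h, leaves_ofCode] at h2
      exact image_eq_empty.1 h2.symm
    obtain ⟨d, hd⟩ := exists_ofCode h1
    rw [hd, map_ofCode] at h
    rw [hd, ofCode_inj h]
  · intro h
    rw [h, map_ofCode]

theorem mem_D_image (f : L → L') (A : Set L) (t' : Tr L') :
    t' ∈ D (f '' A) ↔ ∃ t ∈ D A, t.map f = t' := by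
  constructor
  · intro h
    induction t' with
    | nat n => exact ⟨.nat n, nat_D n, rfl⟩
    | ord a =>
      obtain ⟨x, hx, rfl⟩ := ord_D.1 h
      exact ⟨.ord x, ord_D.2 hx, rfl⟩
    | pr s t ih1 ih2 =>
      obtain ⟨s', hs, rfl⟩ := ih1 (pr_D.1 h).1
      obtain ⟨t', ht, rfl⟩ := ih2 (pr_D.1 h).2
      exact ⟨.pr s' t', pr_D.2 ⟨hs, ht⟩, rfl⟩
  · rintro ⟨t, ht, rfl⟩
    rw [mem_D, leaves_map]
    exact image_mono ht

theorem thm : G_MAPT.{u, v} := by
  intro L L' _ _ f A hf
  refine ⟨leaves_map f, fun t => ⟨fst_map f t, snd_map f t⟩,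
    fun s hs t ht h => map_inj hf.injOn hs ht h, fun s hs t ht => map_lt hf hs ht,
    map_isOrd f, fun s hs t ht => map_lmem hf.injOn hs ht, map_ofCode f, map_eq_ofCode f,
    mem_D_image f A, fun B t ht => (mem_D_image f B _).2 ⟨t, ht, rfl⟩⟩

end PkMAPT

namespace PkOFC

open PkMAPT

theorem thm : G_OFC.{u} := by
  intro L _
  exact ⟨fun c d h => ofCode_inj h, ofCode_lt, leaves_ofCode, fun t ht => exists_ofCode ht,
    ofCode_nat, ofCode_pr⟩

end PkOFC

namespace PkTVM

open PkMAPT

variable {L : Type u} {L' : Type v}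

theorem leaves_fst (t : Tr L) : t.fst.leaves ⊆ t.leaves := by
  cases t with
  | nat n => exact subset_rfl
  | ord a => exact empty_subset _
  | pr s t => exact subset_union_left

theorem leaves_snd (t : Tr L) : t.snd.leaves ⊆ t.leaves := by
  cases t with
  | nat n => exact subset_rfl
  | ord a => exact empty_subset _
  | pr s t => exact subset_union_right

theorem tval_map (f : L → L') (c : Code) (e : Tr L) :
    tval c (e.map f) = (tval c e).map f := by
  fun_induction tval c e with
  | case1 e => simp [tval]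
  | case2 e n => simp [tval, Tr.map]
  | case3 e t ih => simp only [tval, ih, fst_map]
  | case4 e t ih => simp only [tval, ih, snd_map]
  | case5 e s t ih1 ih2 => simp only [tval, ih1, ih2, Tr.map]
  | case6 e c h1 h2 h3 h4 h5 =>
    rw [tval] <;> first | rfl | assumption

theorem tval_leaves (c : Code) (e : Tr L) : (tval c e).leaves ⊆ e.leaves := by
  fun_induction tval c e with
  | case1 e => exact subset_rfl
  | case2 e n => exact empty_subset _
  | case3 e t ih => exact (leaves_fst _).trans ih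
  | case4 e t ih => exact (leaves_snd _).trans ih
  | case5 e s t ih1 ih2 => exact union_subset ih1 ih2
  | case6 e c h1 h2 h3 h4 h5 => exact empty_subset _

theorem thm : G_TVM.{u, v} := by
  intro L L' f c e
  exact ⟨tval_map f c e, tval_leaves c e⟩

end PkTVM

namespace PkDGE

open PkMAPT PkHLE

theorem le_of_strictMonoOn {a : O} {f : O → O} (hf : StrictMonoOn f (Iio a)) :
    ∀ x < a, x ≤ f x := by
  intro x
  induction x using WellFoundedLT.induction with
  | _ x ih =>
    intro hx
    by_contra h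
    rw [not_le] at h
    exact absurd (ih (f x) h (h.trans hx)) (not_le.2 (hf (h.trans hx) hx h))

theorem key {a : O} {f : O → O} (hf : StrictMonoOn f (Iio a)) (t : T) (ht : t ∈ D (Iio a)) :
    t = t.map f ∨ t.lt (t.map f) := by
  induction t with
  | nat n => exact Or.inl rfl
  | ord x =>
    rcases (le_of_strictMonoOn hf x (ord_D.1 ht)).eq_or_lt with h | h
    · exact Or.inl (by simp only [Tr.map, ← h])
    · exact Or.inr h
  | pr s t ih1 ih2 =>
    have hh : (Tr.pr s t).height = (Tr.pr (s.map f) (t.map f)).height := by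
      simp only [Tr.height, height_map]
    rcases ih1 (pr_D.1 ht).1 with h1 | h1
    · rcases ih2 (pr_D.1 ht).2 with h2 | h2
      · left
        simp only [Tr.map]
        rw [← h1, ← h2]
      · right
        exact (lt_pr_iff _ _ _ _).2 (Or.inr ⟨hh, Or.inr ⟨h1, h2⟩⟩)
    · right
      exact (lt_pr_iff _ _ _ _).2 (Or.inr ⟨hh, Or.inl h1⟩)

theorem thm : G_DGE := fun _ _ hf t ht => key hf t ht

end PkDGE

end Pool.Agent.Helper17.OD
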