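import Pool.Agent.Helper17.OD.GoalsFP
import Pool.Agent.Helper61.OD.MAPT

set_option autoImplicit false

/-!
# Canonical codes, the length function (packets CNC, LNS)
-/

namespace Pool.Agent.Helper17.OD

open Set

namespace PkCNC

theorem D_mono' {a b : O} (h : a ≤ b) : (D (Iio a) : Set T) ⊆ D (Iio b) :=
  D_mono (Iio_subset_Iio h)

/-- The leaves of a tree are bounded. -/
theorem exists_D (t : T) : ∃ a : O, t ∈ D (Iio a) := by
  induction t with
  | nat n => exact ⟨0, nat_mem n _⟩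
  | ord a => exact ⟨Order.succ a, ord_mem.2 (Order.lt_succ a)⟩
  | pr s t ih1 ih2 =>
    obtain ⟨a, ha⟩ := ih1
    obtain ⟨b, hb⟩ := ih2
    exact ⟨max a b, pr_mem.2 ⟨D_mono' (le_max_left _ _) ha, D_mono' (le_max_right _ _) hb⟩⟩

/-- Below a limit. -/
theorem exists_D_lt {k : O} (hk : Order.IsSuccLimit k) {t : T} (ht : t ∈ D (Iio k)) :
    ∃ a < k, t ∈ D (Iio a) := by
  induction t with
  | nat n =>
    refine ⟨0, ?_, nat_mem n _⟩
    exact hk.bot_lt
  | ord a => exact ⟨Order.succ a, hk.succ_lt (ord_mem.1 ht), ord_mem.2 (Order.lt_succ a)⟩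
  | pr s t ih1 ih2 =>
    obtain ⟨a, ha, ha'⟩ := ih1 (pr_mem.1 ht).1
    obtain ⟨b, hb, hb'⟩ := ih2 (pr_mem.1 ht).2
    exact ⟨max a b, max_lt ha hb,
      pr_mem.2 ⟨D_mono' (le_max_left _ _) ha', D_mono' (le_max_right _ _) hb'⟩⟩

theorem mem_supl (t : T) : t ∈ D (Iio (supl t)) := csInf_mem (exists_D t)

theorem mem_D_iff (t : T) (a : O) : t ∈ D (Iio a) ↔ supl t ≤ a :=
  ⟨fun h => csInf_le' h, fun h => D_mono' h (mem_supl t)⟩

theorem supl_lt {k : O} (hk : Order.IsSuccLimit k) {t : T} (ht : t ∈ D (Iio k)) : supl t < k := by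
  obtain ⟨a, ha, ha'⟩ := exists_D_lt hk ht
  exact ((mem_D_iff t a).1 ha').trans_lt ha

theorem glt_wf : WellFounded glt := by
  have h1 : WellFounded (Prod.Lex (· < · : O → O → Prop) (Tr.lt : T → T → Prop)) :=
    WellFounded.prod_lex wellFounded_lt (PkLTW.thm O)
  refine Subrelation.wf (r := InvImage (Prod.Lex (· < ·) Tr.lt) fun t : T => (supl t, t)) ?_
    (InvImage.wf _ h1)
  intro s t h
  rcases h with h | ⟨h, h'⟩
  · exact Prod.Lex.left _ _ h
  · change Prod.Lex _ _ (supl s, s) (supl t, t)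
    rw [h]
    exact Prod.Lex.right _ h'

theorem glt_tri (s t : T) : glt s t ∨ s = t ∨ glt t s := by
  rcases lt_trichotomy (supl s) (supl t) with h | h | h
  · exact Or.inl (Or.inl h)
  · rcases PkLTO.tri s t with h1 | h1 | h1
    · exact Or.inl (Or.inr ⟨h, h1⟩)
    · exact Or.inr (Or.inl h1)
    · exact Or.inr (Or.inr (Or.inr ⟨h.symm, h1⟩))
  · exact Or.inr (Or.inr (Or.inl h))

theorem glt_supl {s t : T} (h : glt s t) : supl s ≤ supl t := by
  rcases h with h | h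
  · exact h.le
  · exact h.1.le

theorem glt_D {s t : T} {a : O} (h : glt s t) (ht : t ∈ D (Iio a)) : s ∈ D (Iio a) :=
  (mem_D_iff s a).2 ((glt_supl h).trans ((mem_D_iff t a).1 ht))

/-- The existence of canonical codes. -/
theorem exists_canon {X : Set T} (h : ∃ c, dec c = X) : ∃ c, dec c = X ∧ Canon c := by
  obtain ⟨c, hc, hm⟩ := glt_wf.has_min {c | dec c = X} h
  exact ⟨c, hc, fun c' h1 h2 => hm c' (h2.trans hc) h1⟩

theorem canon_spec {X : Set T} (h : ∃ c, dec c = X) : dec (canon X) = X ∧ Canon (canon X) := by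
  have h1 := exists_canon h
  unfold canon
  rw [dif_pos h1]
  exact h1.choose_spec

theorem canon_unique {c c' : T} (h : Canon c) (h' : Canon c') (hd : dec c = dec c') : c = c' := by
  rcases glt_tri c c' with h1 | h1 | h1
  · exact absurd hd (h' c h1)
  · exact h1
  · exact absurd hd.symm (h c' h1)

theorem canon_dec {c : T} (h : Canon c) : canon (dec c) = c :=
  canon_unique (canon_spec ⟨c, rfl⟩).2 h (canon_spec ⟨c, rfl⟩).1

theorem canon_D {X : Set T} {b : O} (h : ∃ c ∈ D (Iio b), dec c = X) : canon X ∈ D (Iio b) := by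
  obtain ⟨c, hc, hX⟩ := h
  have h1 := canon_spec ⟨c, hX⟩
  rcases glt_tri (canon X) c with h2 | h2 | h2
  · exact glt_D h2 hc
  · rw [h2]; exact hc
  · exact absurd (hX.trans h1.1.symm) (h1.2 c h2)

theorem dec_D {c : T} {k : O} (hc : c ∈ D (Iio k)) : dec c ⊆ D (Iio k) := by
  rintro x ⟨b, φ, v, rfl, hv, hx, -⟩
  have : b < k := ord_mem.1 (pr_mem.1 hc).1
  exact D_mono' this.le hx

/-- The support of a constructible set is bounded. -/
theorem dec_D_lt {c : T} {k : O} (hk : 0 < k) (hc : c ∈ D (Iio k)) :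
    ∃ b < k, dec c ⊆ D (Iio b) := by
  by_cases h : ∃ (b : O) (φ : Code) (v : T), c = .pr (.ord b) (.pr (Tr.ofCode φ) v)
  · obtain ⟨b, φ, v, rfl⟩ := h
    refine ⟨b, ord_mem.1 (pr_mem.1 hc).1, ?_⟩
    rintro x ⟨b', φ', v', h1, hv, hx, -⟩
    simp only [Tr.pr.injEq, Tr.ord.injEq] at h1
    rw [h1.1]
    exact hx
  · refine ⟨0, hk, ?_⟩
    rintro x ⟨b', φ', v', h1, hv, hx, -⟩
    exact absurd ⟨b', φ', v', h1⟩ h

section

variable {k : O} {S S' : Set (Set T)}

theorem sd_supl_lt [h : SOM k S S'] (hT : SD k S S' (fun e _ => InD e.fst e.snd)) :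
    SD k S S' (fun e _ => supl e.fst < supl e.snd) := by
  have h1 : SD k S S' (fun e _ => ∃ x ∈ D (Iio k), x.IsOrd ∧ InD x e.fst ∧ ¬ InD x e.snd) := by
    apply_rules [SD.exT, SD.allT, SD.exS, SD.allS, SD.isOrd, SD.llt, SD.mem, SD.eq, SD.not, SD.and,
      SD.or, SD.iff, SD.imp, ST.id, ST.fst, ST.snd, ST.pr, ST.nat, ST.ordc, SV.var, SV.par,
      SD.app2, SD.const]
  refine h1.congr fun e he _ _ => ?_
  constructor
  · rintro ⟨x, hx, -, ⟨b, rfl, hb⟩, h3⟩
    have h4 : ¬ e.snd ∈ D (Iio b) := fun h5 => h3 ⟨b, rfl, h5⟩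
    rw [mem_D_iff, not_le] at h4
    exact ((mem_D_iff _ _).1 hb).trans_lt h4
  · intro h2
    refine ⟨.ord (supl e.fst), ord_mem.2 (supl_lt h.lim (fst_mem he)), trivial,
      ⟨_, rfl, mem_supl _⟩, ?_⟩
    rintro ⟨b, hb, hb'⟩
    simp only [Tr.ord.injEq] at hb
    rw [mem_D_iff, ← hb] at hb'
    exact absurd h2 (not_lt.2 hb')

theorem sd_glt [h : SOM k S S'] (hT : SD k S S' (fun e _ => InD e.fst e.snd))
    (hL : SD k S S' (fun e _ => e.fst.lt e.snd)) :
    SD k S S' (fun e _ => glt e.fst e.snd) := by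
  have h0 := sd_supl_lt hT
  have h1 : SD k S S' (fun e _ => supl e.fst < supl e.snd ∨
      ((¬ supl e.fst < supl e.snd ∧ ¬ supl e.snd < supl e.fst) ∧ e.fst.lt e.snd)) := by
    refine h0.or ((h0.not.and (SD.not ?_)).and hL)
    exact SD.app2 (R := fun a b => supl a < supl b) h0 (ST.snd ST.id) (ST.fst ST.id)
  refine h1.congr fun e he _ _ => ?_
  unfold glt
  apply or_congr Iff.rfl
  apply and_congr _ Iff.rfl
  constructor
  · rintro ⟨h2, h3⟩
    exact le_antisymm (not_lt.1 h3) (not_lt.1 h2)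
  · intro h2
    exact ⟨h2.not_lt, h2.symm.not_lt⟩

theorem sd_canon [SOM k S S'] (hg : SD k S S' (fun e _ => glt e.fst e.snd))
    (hd : SD k S S' (fun e _ => e.fst ∈ dec e.snd)) :
    SD k S S' (fun e _ => Canon e) := by
  have h1 : SD k S S' (fun e _ => ∀ c ∈ D (Iio k), glt c e →
      ¬ ∀ x ∈ D (Iio k), (x ∈ dec c ↔ x ∈ dec e)) := by
    apply SD.allT (P := fun e c _ => glt c e → ¬ ∀ x ∈ D (Iio k), (x ∈ dec c ↔ x ∈ dec e))
    refine SD.imp (SD.app2 (R := glt) hg (ST.fst ST.id) (ST.snd ST.id)) (SD.not ?_)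
    apply SD.allT (P := fun p x _ => (x ∈ dec p.fst ↔ x ∈ dec p.snd))
    exact SD.iff (SD.app2 (R := fun a b => a ∈ dec b) hd (ST.fst ST.id) (ST.fst (ST.snd ST.id)))
      (SD.app2 (R := fun a b => a ∈ dec b) hd (ST.fst ST.id) (ST.snd (ST.snd ST.id)))
  refine h1.congr fun e he _ _ => ?_
  constructor
  · intro h2 c hc hdc
    exact h2 c (glt_D hc he) hc fun x _ => by rw [hdc]
  · intro h2 c hc hg' hall
    apply h2 c hg'
    ext x
    constructor
    · intro hx
      exact (hall x (dec_D hc hx)).1 hx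
    · intro hx
      exact (hall x (dec_D he hx)).2 hx

end

theorem thm (h1 : G_DEC) (h2 : G_TRE) : G_CNC := by
  refine ⟨fun X h => canon_spec h, fun c h => canon_dec h, fun X b h => canon_D h,
    fun c c' h h' hd => canon_unique h h' hd, mem_D_iff, glt_wf, fun k S S' hS => ?_⟩
  have hSi := hS
  have hg := sd_glt (h2 k S S' hS).2.2.2.2.2.1 (h2 k S S' hS).2.1
  exact ⟨sd_canon hg (h1 k S S' hS).1, hg⟩

end PkCNC

namespace PkLNS

open PkCNC

theorem ln_set_ne (p : T) (i : O) :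
    {a : O | Tr.pr (.ord i) (.pr (.nat 0) (.ord a)) ∉ dec p}.Nonempty := by
  obtain ⟨a, ha⟩ := exists_D p
  refine ⟨a, fun h => ?_⟩
  have h1 := dec_D ha h
  exact absurd (ord_mem.1 (pr_mem.1 (pr_mem.1 h1).2).2) (lt_irrefl a)

theorem lt_ln_iff (p : T) (i x : O) :
    x < ln p i ↔ ∀ y ≤ x, Tr.pr (.ord i) (.pr (.nat 0) (.ord y)) ∈ dec p := by
  constructor
  · intro h y hy
    by_contra h1
    exact absurd ((csInf_le' h1 : ln p i ≤ y).trans hy) (not_le.2 h)
  · intro h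
    by_contra h1
    rw [not_lt] at h1
    exact (csInf_mem (ln_set_ne p i) : ln p i ∈ _) (h _ h1)

theorem mem_of_lt_ln {p : T} {i x : O} (h : x < ln p i) :
    Tr.pr (.ord i) (.pr (.nat 0) (.ord x)) ∈ dec p := (lt_ln_iff p i x).1 h x le_rfl

theorem thm (h1 : G_DEC) : G_LNS := by
  intro k S S' hS
  have hSi := hS
  have hd := (h1 k S S' hS).1
  have h2 : SD k S S' (fun e _ => (e.snd.fst.IsOrd ∧ e.snd.snd.IsOrd) ∧ ∀ y ∈ D (Iio k), y.IsOrd →
      (y = e.snd.snd ∨ y.llt e.snd.snd) → Tr.pr e.snd.fst (.pr (.nat 0) y) ∈ dec e.fst) := by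
    refine SD.and (SD.and (SD.isOrd (ST.fst (ST.snd ST.id))) (SD.isOrd (ST.snd (ST.snd ST.id)))) ?_
    apply SD.allT (P := fun e y _ => y.IsOrd →
      (y = e.snd.snd ∨ y.llt e.snd.snd) → Tr.pr e.snd.fst (.pr (.nat 0) y) ∈ dec e.fst)
    refine SD.imp (SD.isOrd (ST.fst ST.id)) (SD.imp (SD.or
      (SD.eq (ST.fst ST.id) (ST.snd (ST.snd (ST.snd ST.id))))
      (SD.llt (ST.fst ST.id) (ST.snd (ST.snd (ST.snd ST.id))))) ?_)
    exact SD.app2 (R := fun a b => a ∈ dec b) hd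
      (ST.pr (ST.fst (ST.snd (ST.snd ST.id))) (ST.pr (ST.nat 0) (ST.fst ST.id)))
      (ST.fst (ST.snd ST.id))
  refine h2.congr fun e he _ _ => ?_
  generalize hp : e.fst = p
  generalize hi : e.snd.fst = ti
  generalize hx : e.snd.snd = tx
  have htx : tx ∈ D (Iio k) := hx ▸ snd_mem (snd_mem he)
  constructor
  · rintro ⟨⟨h3, h4⟩, h5⟩
    cases ti with
    | nat n => exact h3.elim
    | pr s t => exact h3.elim
    | ord i =>
      cases tx with
      | nat n => exact h4.elim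
      | pr s t => exact h4.elim
      | ord x =>
        refine ⟨i, x, rfl, rfl, (lt_ln_iff p i x).2 fun y hy => ?_⟩
        refine h5 (.ord y) (ord_mem.2 (hy.trans_lt (ord_mem.1 htx))) trivial ?_
        rcases hy.eq_or_lt with h6 | h6
        · exact Or.inl (by rw [h6])
        · exact Or.inr h6
  · rintro ⟨i, x, rfl, rfl, h3⟩
    refine ⟨⟨trivial, trivial⟩, fun y _ hy hyx => ?_⟩
    cases y with
    | nat n => exact hy.elim
    | pr s t => exact hy.elim
    | ord y =>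
      refine (lt_ln_iff p i x).1 h3 y ?_
      rcases hyx with h6 | h6
      · simp only [Tr.ord.injEq] at h6
        exact h6.le
      · exact le_of_lt h6

end PkLNS

end Pool.Agent.Helper17.OD
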