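import Pool.Agent.Helper61.OD.FPB

set_option autoImplicit false

/-!
# Extension to equal lengths (packet EQL)
-/

namespace Pool.Agent.Helper17.OD

open Set

namespace PkEQL

open PkPUN PkPBD PkCNC PkLNS PkPRO

theorem regO_empty (F : FD) (i : O) : RegO (F.P i) (F.Le i) ∅ := by
  refine ⟨empty_subset _, fun r hr => absurd hr (notMem_empty r), fun r hr h => ?_⟩
  obtain ⟨u, -, -, hu⟩ := h r hr (PkPRO.refl i r)
  exact absurd hu (notMem_empty u)

theorem ext (F : FD) {p q : T} (hp : p ∈ F.P F.κ) (hq : q ∈ F.P F.κ) :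
    ∃ p' ∈ F.P F.κ, F.Le F.κ p' p ∧ ∀ i < F.κ, ln p' i = max (ln p i) (ln q i) := by
  classical
  have hS : SOM F.γ F.M F.M := F.g.m1
  have hpM := dec_M hp
  have hqM := dec_M hq
  obtain ⟨d, hd, hd'⟩ := suppP hp
  obtain ⟨e, he, he'⟩ := suppP hq
  have hZ : {z : T | ∃ i < F.κ, i < F.κ ∧ ∃ x < max (ln p i) (ln q i),
      z = .pr (.ord i) (.pr (.nat 0) (.ord x)) ∨
      ∃ s ∈ nm p i x, z = .pr (.ord i) (.pr (.nat 1) (.pr (.ord x) s))} ∈ F.M := by
    have h1 : {z : T | ∃ i < F.κ, i < F.κ ∧ ∃ x < max (ln p i) (ln q i),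
      z = .pr (.ord i) (.pr (.nat 0) (.ord x)) ∨
      ∃ s ∈ nm p i x, z = .pr (.ord i) (.pr (.nat 1) (.pr (.ord x) s))} =
      {z | z ∈ dec p ∨ (z ∈ dec q ∧ z.snd.fst = .nat 0)} := by
      ext z
      constructor
      · rintro ⟨i, hi, -, x, hx, h | ⟨s, hs, h⟩⟩
        · rcases lt_max_iff.1 hx with hx | hx
          · left
            rw [h]
            exact mem_of_lt_ln hx
          · right
            rw [h]
            exact ⟨mem_of_lt_ln hx, rfl⟩
        · left
          rw [h]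
          exact hs
      · rintro (h | ⟨h, h0⟩)
        · rw [decP hp] at h
          obtain ⟨i, hi, hk, x, hx, h⟩ := h
          exact ⟨i, hi, hk, x, hx.trans_le (le_max_left _ _), h⟩
        · rw [decP hq] at h
          obtain ⟨i, hi, hk, x, hx, h⟩ := h
          refine ⟨i, hi, hk, x, hx.trans_le (le_max_right _ _), Or.inl ?_⟩
          rcases h with h | ⟨s, hs, h⟩
          · exact h
          · rw [h] at h0
            simp [Tr.fst, Tr.snd] at h0
    rw [h1]
    obtain ⟨b, hb, hb'⟩ := hS.bdd _ hpM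
    obtain ⟨c, hc, hc'⟩ := hS.bdd _ hqM
    refine SOM.of_SD (h := hS) (d := max b c) (max_lt hb hc) ?_ ?_
    · rintro z (h | ⟨h, -⟩)
      · exact D_mono' (le_max_left _ _) (hb' h)
      · exact D_mono' (le_max_right _ _) (hc' h)
    · exact SD.or (SD.mem (θ := fun _ => dec p) ST.id (Or.inr ⟨_, hpM, fun _ => rfl⟩))
        (SD.and (SD.mem (θ := fun _ => dec q) ST.id (Or.inr ⟨_, hqM, fun _ => rfl⟩))
          (SD.eq (ST.fst (ST.snd ST.id)) (ST.nat 0)))
  obtain ⟨p', hp', h1⟩ := PkBLD.build F F.κ (fun i => max (ln p i) (ln q i)) (nm p) hZ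
    ⟨max d e, max_lt hd he, fun i _ hi => by
      rw [(hd' i ((le_max_left _ _).trans hi)).1, (he' i ((le_max_right _ _).trans hi)).1,
        max_self]⟩
    (fun i hi hk => max_lt ((cond hp).len i hi hk) ((cond hq).len i hi hk))
    (fun i hi hk x hx => by
      rcases lt_or_ge x (ln p i) with h2 | h2
      · exact (cond hp).ro i hi hk x h2
      · rw [nm_empty hp h2]
        exact regO_empty F i)
    (fun i hi hk => by
      rintro ⟨f, r, hf, hfM, hr, h2⟩
      apply (cond hp).thin i hi hk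
      refine ⟨f, r, hf, hfM, hr, fun x hx => ⟨?_, (h2 x hx).2⟩⟩
      by_contra h3
      have h4 := (h2 x hx).2
      rw [nm_empty hp (not_lt.1 h3)] at h4
      exact absurd h4 (notMem_empty _))
  refine ⟨p', hp', (le_iff F F.κ p' p).2 fun i hi => ?_, fun i hi => (h1 i hi hi).1⟩
  rw [(h1 i hi hi).1]
  refine ⟨le_max_left _ _, fun x hx r _ _ => ?_⟩
  rw [(h1 i hi hi).2 x (hx.trans_le (le_max_left _ _))]

theorem thm : G_EQL := by
  intro F p hp q hq
  obtain ⟨p', h1, h2, h3⟩ := ext F hp hq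
  obtain ⟨q', h4, h5, h6⟩ := ext F hq hp
  exact ⟨p', h1, q', h4, h2, h5, fun i hi => by rw [h3 i hi, h6 i hi, max_comm]⟩

end PkEQL

end Pool.Agent.Helper17.OD
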