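import Pool.Agent.Helper61.OD.CNC

set_option autoImplicit false

/-!
# Basic facts on the forcing (packets PUN, PBD, PRO, EQV, BLD)
-/

namespace Pool.Agent.Helper17.OD

open Set

namespace PkPUN

theorem plr_eq (M : Set (Set T)) (w κ : O) (η : O → O) (j : O) :
    PLr M w κ η j = ({p | CondS M w κ η (fun i => {p | i < j ∧ p ∈ (PLr M w κ η i).1})
      (fun i q p => i < j ∧ (PLr M w κ η i).2 q p) j p},
      LeS (fun i => {p | i < j ∧ p ∈ (PLr M w κ η i).1})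
        (fun i q p => i < j ∧ (PLr M w κ η i).2 q p) j) := by
  conv_lhs => rw [PLr, WellFounded.fix_eq]
  simp only [exists_prop]
  rfl

variable (F : FD)

theorem p_cut {i j : O} (h : i < j) : {p | i < j ∧ p ∈ (PLr F.M F.w F.κ F.η i).1} = F.P i := by
  ext p
  exact ⟨fun h1 => h1.2, fun h1 => ⟨h, h1⟩⟩

theorem le_cut {i j : O} (h : i < j) :
    (fun q p => i < j ∧ (PLr F.M F.w F.κ F.η i).2 q p) = F.Le i := by
  funext q p
  exact propext ⟨fun h1 => h1.2, fun h1 => ⟨h, h1⟩⟩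

theorem le_iff (j : O) (q p : T) : F.Le j q p ↔ LeS F.P F.Le j q p := by
  unfold FD.Le
  rw [plr_eq]
  unfold LeS
  apply forall_congr' fun i => forall_congr' fun hi => and_congr Iff.rfl ?_
  apply forall_congr' fun x => forall_congr' fun _ => forall_congr' fun r => ?_
  constructor
  · intro h1 h2 h3
    exact h1 ⟨hi, h2⟩ ⟨hi, h3⟩
  · intro h1 h2 h3
    exact h1 h2.2 h3.2

theorem cond_iff (j : O) (p : T) : p ∈ F.P j ↔ CondS F.M F.w F.κ F.η F.P F.Le j p := by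
  have h0 : p ∈ F.P j ↔ CondS F.M F.w F.κ F.η (fun i => {p | i < j ∧ p ∈ (PLr F.M F.w F.κ F.η i).1})
      (fun i q p => i < j ∧ (PLr F.M F.w F.κ F.η i).2 q p) j p := by
    unfold FD.P
    rw [plr_eq]
    rfl
  rw [h0]
  constructor
  · intro h
    refine ⟨h.canon, h.low, fun z hz => ?_, h.len, fun i hi hk x hx => ?_, fun i hi hk => ?_⟩
    · obtain ⟨i, hi, hk, x, hx, h1⟩ := h.shape z hz
      refine ⟨i, hi, hk, x, hx, ?_⟩
      rcases h1 with h1 | ⟨s, hs, h1⟩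
      · exact Or.inl h1
      · exact Or.inr ⟨s, hs.2, h1⟩
    · have h1 := h.ro i hi hk x hx
      rw [p_cut F hi, le_cut F hi] at h1
      exact h1
    · have h1 := h.thin i hi hk
      rw [p_cut F hi] at h1
      exact h1
  · intro h
    refine ⟨h.canon, h.low, fun z hz => ?_, h.len, fun i hi hk x hx => ?_, fun i hi hk => ?_⟩
    · obtain ⟨i, hi, hk, x, hx, h1⟩ := h.shape z hz
      refine ⟨i, hi, hk, x, hx, ?_⟩
      rcases h1 with h1 | ⟨s, hs, h1⟩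
      · exact Or.inl h1
      · exact Or.inr ⟨s, ⟨hi, hs⟩, h1⟩
    · have h1 := h.ro i hi hk x hx
      rw [p_cut F hi, le_cut F hi]
      exact h1
    · have h1 := h.thin i hi hk
      rw [p_cut F hi]
      exact h1

theorem thm : G_PUN := fun F => ⟨le_iff F, cond_iff F⟩

end PkPUN

namespace PkPBD

open PkCNC PkLNS PkPUN

variable (F : FD)

theorem w_pos : 0 < F.w := (Ordinal.omega0_pos).trans F.g.omw

theorem κ_pos : 0 < F.κ := (w_pos F).trans F.g.wk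

theorem D_κ_γ : (D (Iio F.κ) : Set T) ⊆ D (Iio F.γ) := D_mono' F.g.kg.le

variable {F}

theorem ln_zero_of {p : T} {i : O} (h : ∀ z' : T, Tr.pr (.ord i) z' ∉ dec p) : ln p i = 0 := by
  by_contra h1
  have h2 : 0 < ln p i := bot_lt_iff_ne_bot.2 h1
  exact h _ (mem_of_lt_ln h2)

theorem cond {j : O} {p : T} (h : p ∈ F.P j) : CondS F.M F.w F.κ F.η F.P F.Le j p :=
  (cond_iff F j p).1 h

theorem of_cond {j : O} {p : T} (h : CondS F.M F.w F.κ F.η F.P F.Le j p) : p ∈ F.P j :=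
  (cond_iff F j p).2 h

theorem lowP (j : O) : F.P j ⊆ D (Iio F.κ) := fun _ hp => (cond hp).low

theorem dec_M {j : O} {p : T} (hp : p ∈ F.P j) : dec p ∈ F.M :=
  ⟨p, D_κ_γ F (lowP j hp), rfl⟩

theorem ln_zero {j : O} {p : T} (hp : p ∈ F.P j) {i : O} (hi : j ≤ i) : ln p i = 0 := by
  apply ln_zero_of
  intro z' hz
  obtain ⟨i', hi', -, x, -, h1⟩ := (cond hp).shape _ hz
  rcases h1 with h1 | ⟨s, -, h1⟩
  · simp only [Tr.pr.injEq, Tr.ord.injEq] at h1
    rw [h1.1] at hi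
    exact absurd hi' (not_lt.2 hi)
  · simp only [Tr.pr.injEq, Tr.ord.injEq] at h1
    rw [h1.1] at hi
    exact absurd hi' (not_lt.2 hi)

theorem nm_empty {j : O} {p : T} (hp : p ∈ F.P j) {i x : O} (hx : ln p i ≤ x) : nm p i x = ∅ := by
  apply eq_empty_of_forall_notMem
  intro s hs
  obtain ⟨i', hi', -, x', hx', h1⟩ := (cond hp).shape _ hs
  rcases h1 with h1 | ⟨s', -, h1⟩
  · simp at h1
  · simp only [Tr.pr.injEq, Tr.ord.injEq] at h1
    rw [h1.1, h1.2.2.1] at hx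
    exact absurd hx' (not_lt.2 hx)

theorem thin_zero {M : Set (Set T)} {P : Set T} {N : O → Set T} : Thin M F.w P N 0 := by
  rintro ⟨f, r, -, -, -, h⟩
  exact absurd (h 0 (w_pos F)).1 (not_lt.2 zero_le)

theorem η_pos {i : O} (hi : i < F.κ) : 0 < F.η i := zero_le.trans_lt (F.e.low i hi).2

theorem monoP {i j : O} (hij : i ≤ j) : F.P i ⊆ F.P j := by
  intro p hp
  have h := cond hp
  apply of_cond
  refine ⟨h.canon, h.low, fun z hz => ?_, fun i' hi' hk => ?_, fun i' hi' hk x hx => ?_,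
    fun i' hi' hk => ?_⟩
  · obtain ⟨i', hi', h1⟩ := h.shape z hz
    exact ⟨i', hi'.trans_le hij, h1⟩
  · rcases lt_or_ge i' i with h1 | h1
    · exact h.len i' h1 hk
    · rw [ln_zero hp h1]
      exact η_pos hk
  · rcases lt_or_ge i' i with h1 | h1
    · exact h.ro i' h1 hk x hx
    · rw [ln_zero hp h1] at hx
      exact absurd hx (not_lt.2 zero_le)
  · rcases lt_or_ge i' i with h1 | h1
    · exact h.thin i' h1 hk
    · rw [ln_zero hp h1]
      exact thin_zero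

theorem lowerP {p : T} {j : O} (hp : p ∈ F.P F.κ) (h0 : ∀ i, j ≤ i → ln p i = 0) :
    p ∈ F.P j := by
  have h := cond hp
  apply of_cond
  refine ⟨h.canon, h.low, fun z hz => ?_, fun i' hi' hk => h.len i' hk hk,
    fun i' hi' hk x hx => h.ro i' hk hk x hx, fun i' hi' hk => h.thin i' hk hk⟩
  obtain ⟨i', hi', hk, x, hx, h1⟩ := h.shape z hz
  refine ⟨i', ?_, hk, x, hx, h1⟩
  by_contra h2
  rw [h0 i' (not_lt.1 h2)] at hx
  exact absurd hx (not_lt.2 zero_le)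

theorem decP {j : O} {p : T} (hp : p ∈ F.P j) : dec p = {z | ∃ i < j, i < F.κ ∧ ∃ x < ln p i,
    z = .pr (.ord i) (.pr (.nat 0) (.ord x)) ∨
    ∃ s ∈ nm p i x, z = .pr (.ord i) (.pr (.nat 1) (.pr (.ord x) s))} := by
  ext z
  constructor
  · intro hz
    obtain ⟨i, hi, hk, x, hx, h1⟩ := (cond hp).shape z hz
    refine ⟨i, hi, hk, x, hx, ?_⟩
    rcases h1 with h1 | ⟨s, -, h1⟩
    · exact Or.inl h1
    · refine Or.inr ⟨s, ?_, h1⟩
      rw [h1] at hz
      exact hz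
  · rintro ⟨i, hi, hk, x, hx, h1 | ⟨s, hs, h1⟩⟩
    · rw [h1]
      exact mem_of_lt_ln hx
    · rw [h1]
      exact hs

theorem suppP {j : O} {p : T} (hp : p ∈ F.P j) :
    ∃ d < F.κ, ∀ i, d ≤ i → ln p i = 0 ∧ ∀ x, nm p i x = ∅ := by
  obtain ⟨b, hb, hb'⟩ := dec_D_lt (κ_pos F) (lowP j hp)
  have key : ∀ i, b ≤ i → ∀ z' : T, Tr.pr (.ord i) z' ∉ dec p := by
    intro i hi z' hz
    exact absurd (ord_mem.1 (pr_mem.1 (hb' hz)).1) (not_lt.2 hi)
  refine ⟨b, hb, fun i hi => ⟨ln_zero_of (key i hi), fun x => ?_⟩⟩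
  apply eq_empty_of_forall_notMem
  intro s hs
  exact key i hi _ hs

/-- The least canonical code is low. -/
theorem canon_low {p : T} {b : O} (hp : Canon p) (h : ∃ c ∈ D (Iio b), dec p = dec c) :
    p ∈ D (Iio b) := by
  obtain ⟨c, hc, h1⟩ := h
  rw [← canon_dec hp]
  exact canon_D ⟨c, hc, h1.symm⟩

theorem rP (j : O) (hj : j < F.κ) : ∃ r < F.η j, F.P j ⊆ D (Iio r) := by
  induction j using WellFoundedLT.induction with
  | _ j ih =>
    obtain ⟨r, hr, hr'⟩ := F.e.cod j hj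
    refine ⟨r, hr, fun p hp => ?_⟩
    have hc := cond hp
    apply canon_low hc.canon
    apply hr' (dec p) (dec_M hp)
    intro z hz
    obtain ⟨i, hi, hk, x, hx, h1⟩ := hc.shape z hz
    have h2 : (Tr.ord i : T) ∈ D {a | a < j ∨ ∃ i < j, a < F.η i} := ord_mem.2 (Or.inl hi)
    have h3 : (Tr.ord x : T) ∈ D {a | a < j ∨ ∃ i < j, a < F.η i} :=
      ord_mem.2 (Or.inr ⟨i, hi, hx.trans (hc.len i hi hk)⟩)
    rcases h1 with rfl | ⟨s, hs, rfl⟩
    · exact pr_mem.2 ⟨h2, pr_mem.2 ⟨nat_mem _ _, h3⟩⟩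
    · obtain ⟨r', hr1, hr2⟩ := ih i hi hk
      have h4 : s ∈ D {a | a < j ∨ ∃ i < j, a < F.η i} :=
        D_mono (fun a ha => Or.inr ⟨i, hi, (mem_Iio.1 ha).trans hr1⟩) (hr2 hs)
      exact pr_mem.2 ⟨h2, pr_mem.2 ⟨nat_mem _ _, pr_mem.2 ⟨h3, h4⟩⟩⟩

theorem thm : G_PBD := by
  intro F
  exact ⟨rP, lowP, fun i j h => monoP h, fun j p hp => ⟨dec_M hp, suppP hp⟩,
    fun j p hp i hi => ln_zero hp hi, fun j p hp i x hx => nm_empty hp hx,
    fun p hp j _ h0 => lowerP hp h0, fun j p hp => decP hp⟩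

end PkPBD

namespace PkPRO

open PkPUN

variable {F : FD}

theorem refl (j : O) (p : T) : F.Le j p p :=
  (le_iff F j p p).2 fun _ _ => ⟨le_rfl, fun _ _ _ _ _ => Iff.rfl⟩

theorem mono {i j : O} {q p : T} (hij : i ≤ j) (h : F.Le j q p) : F.Le i q p :=
  (le_iff F i q p).2 fun i' hi' => (le_iff F j q p).1 h i' (hi'.trans_le hij)

theorem trans {j : O} {p q r : T} (h1 : F.Le j r q) (h2 : F.Le j q p) : F.Le j r p := by
  induction j using WellFoundedLT.induction generalizing p q r with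
  | _ j ih =>
    refine (le_iff F j r p).2 fun i hi => ?_
    have h3 := (le_iff F j r q).1 h1 i hi
    have h4 := (le_iff F j q p).1 h2 i hi
    refine ⟨h4.1.trans h3.1, fun x hx s hs hsr => ?_⟩
    rw [h3.2 x (hx.trans_le h4.1) s hs hsr, h4.2 x hx s hs]
    exact ih i hi hsr (mono hi.le h1)

theorem thm : G_PRO := by
  intro F
  exact ⟨refl, fun j p q r h1 h2 => trans h1 h2, fun i j q p h1 h2 => mono h1 h2,
    fun q p => (le_iff F 0 q p).2 fun i hi => absurd hi (not_lt.2 zero_le),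
    fun j q p h i hi => ((le_iff F j q p).1 h i hi).1⟩

end PkPRO

namespace PkEQV

open PkPUN PkPBD PkCNC

variable {F : FD}

theorem symm {j : O} {p q : T} (h : EqB j p q) : EqB j q p := fun i hi =>
  ⟨(h i hi).1.symm, fun x hx => ((h i hi).2 x ((h i hi).1 ▸ hx)).symm⟩

theorem le_of_eqB {j : O} {p q : T} (h : EqB j p q) : F.Le j p q := by
  refine (le_iff F j p q).2 fun i hi => ⟨(h i hi).1.ge, fun x hx r _ _ => ?_⟩
  rw [(h i hi).2 x ((h i hi).1 ▸ hx)]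

theorem eq_of_eqB {j : O} {p q : T} (hp : p ∈ F.P j) (hq : q ∈ F.P j) (h : EqB j p q) :
    p = q := by
  apply canon_unique (cond hp).canon (cond hq).canon
  have key : ∀ {p q : T}, p ∈ F.P j → q ∈ F.P j → EqB j p q → dec p ⊆ dec q := by
    intro p q hp hq h
    rw [decP hp, decP hq]
    rintro z ⟨i, hi, hk, x, hx, h1⟩
    refine ⟨i, hi, hk, x, (h i hi).1 ▸ hx, ?_⟩
    rcases h1 with h1 | ⟨s, hs, h1⟩
    · exact Or.inl h1
    · exact Or.inr ⟨s, (h i hi).2 x hx ▸ hs, h1⟩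
  exact (key hp hq h).antisymm (key hq hp (symm h))

theorem le_ext {i j : O} (hij : i ≤ j) {p q : T} (h : ∀ x, i ≤ x → x < j → ln q x = 0) :
    F.Le i p q ↔ F.Le j p q := by
  constructor
  · intro h1
    refine (le_iff F j p q).2 fun x hx => ?_
    rcases lt_or_ge x i with h2 | h2
    · exact (le_iff F i p q).1 h1 x h2
    · rw [h x h2 hx]
      exact ⟨zero_le, fun y hy => absurd hy (not_lt.2 zero_le)⟩
  · exact fun h1 => PkPRO.mono hij h1

theorem thm : G_EQV := by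
  intro F
  refine ⟨fun j p p' r h => ⟨⟨fun h1 => PkPRO.trans h1 (le_of_eqB h),
    fun h1 => PkPRO.trans h1 (le_of_eqB (symm h))⟩,
    ⟨fun h1 => PkPRO.trans (le_of_eqB (symm h)) h1, fun h1 => PkPRO.trans (le_of_eqB h) h1⟩,
    le_of_eqB h⟩, fun j _ p hp q hq h => eq_of_eqB hp hq h, fun i j hij p q h => le_ext hij h⟩

end PkEQV

namespace PkBLD

open PkPUN PkPBD PkCNC PkLNS

theorem build (F : FD) (j : O) (l : O → O) (N : O → O → Set T)
    (hZ : {z : T | ∃ i < j, i < F.κ ∧ ∃ x < l i, z = .pr (.ord i) (.pr (.nat 0) (.ord x)) ∨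
      ∃ s ∈ N i x, z = .pr (.ord i) (.pr (.nat 1) (.pr (.ord x) s))} ∈ F.M)
    (hd : ∃ d < F.κ, ∀ i < j, d ≤ i → l i = 0)
    (hl : ∀ i < j, i < F.κ → l i < F.η i)
    (hr : ∀ i < j, i < F.κ → ∀ x < l i, RegO (F.P i) (F.Le i) (N i x))
    (ht : ∀ i < j, i < F.κ → Thin F.M F.w (F.P i) (N i) (l i)) :
    ∃ p ∈ F.P j, (∀ i < j, i < F.κ → ln p i = l i ∧ ∀ x < l i, nm p i x = N i x) := by
  obtain ⟨Z, rfl⟩ : ∃ Z, {z : T | ∃ i < j, i < F.κ ∧ ∃ x < l i,
      z = .pr (.ord i) (.pr (.nat 0) (.ord x)) ∨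
      ∃ s ∈ N i x, z = .pr (.ord i) (.pr (.nat 1) (.pr (.ord x) s))} = Z := ⟨_, rfl⟩
  obtain ⟨d, hdk, hd⟩ := hd
  -- a bound
  have hb : {z : T | ∃ i < j, i < F.κ ∧ ∃ x < l i, z = .pr (.ord i) (.pr (.nat 0) (.ord x)) ∨
      ∃ s ∈ N i x, z = .pr (.ord i) (.pr (.nat 1) (.pr (.ord x) s))} ⊆ D (Iio (F.η d)) := by
    rintro z ⟨i, hi, hk, x, hx, h1⟩
    have hid : i < d := by
      by_contra h2
      rw [hd i hi (not_lt.1 h2)] at hx
      exact absurd hx (not_lt.2 zero_le)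
    have hηi : F.η i < F.η d := F.e.inc d hdk i hid
    have h2 : (Tr.ord i : T) ∈ D (Iio (F.η d)) := ord_mem.2 (hid.trans (F.e.low d hdk).2)
    have h3 : (Tr.ord x : T) ∈ D (Iio (F.η d)) := ord_mem.2 ((hx.trans (hl i hi hk)).trans hηi)
    rcases h1 with rfl | ⟨s, hs, rfl⟩
    · exact pr_mem.2 ⟨h2, pr_mem.2 ⟨nat_mem _ _, h3⟩⟩
    · obtain ⟨r, hr1, hr2⟩ := rP (F := F) i hk
      have h4 : s ∈ D (Iio (F.η d)) :=
        D_mono' (hr1.trans hηi).le (hr2 ((hr i hi hk x hx).1 hs))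
      exact pr_mem.2 ⟨h2, pr_mem.2 ⟨nat_mem _ _, pr_mem.2 ⟨h3, h4⟩⟩⟩
  generalize hZZ : {z : T | ∃ i < j, i < F.κ ∧ ∃ x < l i,
      z = .pr (.ord i) (.pr (.nat 0) (.ord x)) ∨
      ∃ s ∈ N i x, z = .pr (.ord i) (.pr (.nat 1) (.pr (.ord x) s))} = Z at hZ hb
  obtain ⟨c, hc, hcZ⟩ := F.g.m2 Z hZ (F.η d) (F.e.lt d hdk) hb
  have hsp := canon_spec ⟨c, hcZ.symm⟩
  have hlow : canon Z ∈ D (Iio F.κ) := canon_D ⟨c, hc, hcZ.symm⟩
  -- membership in `Z`
  have m1 : ∀ i < j, i < F.κ → ∀ x, Tr.pr (.ord i) (.pr (.nat 0) (.ord x)) ∈ Z ↔ x < l i := by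
    intro i hi hk x
    rw [← hZZ]
    constructor
    · rintro ⟨i', hi', hk', x', hx', h1 | ⟨s, hs, h1⟩⟩
      · simp only [Tr.pr.injEq, Tr.ord.injEq, true_and] at h1
        rw [h1.1, h1.2]
        exact hx'
      · simp at h1
    · intro hx
      exact ⟨i, hi, hk, x, hx, Or.inl rfl⟩
  have m2 : ∀ i < j, i < F.κ → ∀ x < l i, ∀ s,
      Tr.pr (.ord i) (.pr (.nat 1) (.pr (.ord x) s)) ∈ Z ↔ s ∈ N i x := by
    intro i hi hk x hx s
    rw [← hZZ]
    constructor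
    · rintro ⟨i', hi', hk', x', hx', h1 | ⟨s', hs, h1⟩⟩
      · simp at h1
      · simp only [Tr.pr.injEq, Tr.ord.injEq, true_and] at h1
        rw [h1.1, h1.2.1, h1.2.2]
        exact hs
    · intro hs
      exact ⟨i, hi, hk, x, hx, Or.inr ⟨s, hs, rfl⟩⟩
  have e1 : ∀ i < j, i < F.κ → ln (canon Z) i = l i := by
    intro i hi hk
    apply le_antisymm
    · by_contra h1
      rw [not_le] at h1
      have h2 := mem_of_lt_ln h1
      rw [hsp.1, m1 i hi hk] at h2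
      exact lt_irrefl _ h2
    · by_contra h1
      rw [not_le] at h1
      have h2 : Tr.pr (.ord i) (.pr (.nat 0) (.ord (ln (canon Z) i))) ∉ dec (canon Z) :=
        csInf_mem (ln_set_ne (canon Z) i)
      apply h2
      have h3 := (m1 i hi hk (ln (canon Z) i)).2 h1
      exact hsp.1.symm.subset h3
  have e2 : ∀ i < j, i < F.κ → ∀ x < l i, nm (canon Z) i x = N i x := by
    intro i hi hk x hx
    ext s
    have h3 := m2 i hi hk x hx s
    rw [← hsp.1] at h3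
    exact h3
  refine ⟨canon Z, of_cond ⟨hsp.2, hlow, fun z hz => ?_, fun i hi hk => ?_,
    fun i hi hk x hx => ?_, fun i hi hk => ?_⟩, fun i hi hk => ⟨e1 i hi hk, e2 i hi hk⟩⟩
  · rw [hsp.1, ← hZZ] at hz
    obtain ⟨i, hi, hk, x, hx, h1⟩ := hz
    refine ⟨i, hi, hk, x, by rw [e1 i hi hk]; exact hx, ?_⟩
    rcases h1 with h1 | ⟨s, hs, h1⟩
    · exact Or.inl h1
    · exact Or.inr ⟨s, (hr i hi hk x hx).1 hs, h1⟩
  · rw [e1 i hi hk]
    exact hl i hi hk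
  · rw [e1 i hi hk] at hx
    rw [e2 i hi hk x hx]
    exact hr i hi hk x hx
  · rintro ⟨f, r, hf, hfM, hr', h1⟩
    apply ht i hi hk
    refine ⟨f, r, hf, hfM, hr', fun x hx => ?_⟩
    have h2 := (h1 x hx).1
    rw [e1 i hi hk] at h2
    have h3 := (h1 x hx).2
    rw [e2 i hi hk _ h2] at h3
    exact ⟨h2, h3⟩

theorem thm : G_BLD := fun F j _ l N h1 h2 h3 h4 h5 => build F j l N h1 h2 h3 h4 h5

end PkBLD

end Pool.Agent.Helper17.OD
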