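import Pool.Agent.Helper61.OD.HLE

set_option autoImplicit false

/-!
# The canonical order of trees is a strict linear order (packet LTO)
-/

namespace Pool.Agent.Helper17.OD

universe u v

namespace PkLTO

open PkHLE

variable {L : Type u} [LinearOrder L]

theorem irrefl (s : Tr L) : ¬ s.lt s := by
  induction s with
  | nat n => exact Nat.lt_irrefl n
  | ord a => exact _root_.lt_irrefl a
  | pr s1 s2 ih1 ih2 =>
    rw [lt_pr_iff]
    rintro (h | ⟨-, h | ⟨-, h⟩⟩)
    · exact absurd h (Nat.lt_irrefl _)
    · exact ih1 h
    · exact ih2 h

theorem trans {s t r : Tr L} (h1 : s.lt t) (h2 : t.lt r) : s.lt r := by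
  induction s generalizing t r with
  | nat n =>
    cases r with
    | nat k =>
      cases t with
      | nat m => exact Nat.lt_trans (h1 : n < m) (h2 : m < k)
      | ord a => exact h2.elim
      | pr t1 t2 => exact h2.elim
    | ord a => trivial
    | pr r1 r2 => trivial
  | ord a =>
    cases r with
    | nat k =>
      cases t with
      | nat m => exact h1.elim
      | ord a => exact h2.elim
      | pr t1 t2 => exact h2.elim
    | ord b =>
      cases t with
      | nat m => exact h1.elim
      | ord c => exact lt_trans (h1 : a < c) (h2 : c < b)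
      | pr t1 t2 => exact h2.elim
    | pr r1 r2 => trivial
  | pr s1 s2 ih1 ih2 =>
    cases t with
    | nat m => exact h1.elim
    | ord a => exact h1.elim
    | pr t1 t2 =>
      cases r with
      | nat m => exact h2.elim
      | ord a => exact h2.elim
      | pr r1 r2 =>
        rw [lt_pr_iff] at h1 h2 ⊢
        rcases h1 with h1 | ⟨h1, h1'⟩
        · rcases h2 with h2 | ⟨h2, -⟩
          · exact Or.inl (h1.trans h2)
          · exact Or.inl (h2 ▸ h1)
        · rcases h2 with h2 | ⟨h2, h2'⟩
          · exact Or.inl (h1 ▸ h2)
          · refine Or.inr ⟨h1.trans h2, ?_⟩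
            rcases h1' with h3 | ⟨h3, h4⟩
            · rcases h2' with h5 | ⟨h5, -⟩
              · exact Or.inl (ih1 h3 h5)
              · exact Or.inl (h5 ▸ h3)
            · rcases h2' with h5 | ⟨h5, h6⟩
              · exact Or.inl (h3 ▸ h5)
              · exact Or.inr ⟨h3.trans h5, ih2 h4 h6⟩

theorem tri (s t : Tr L) : s.lt t ∨ s = t ∨ t.lt s := by
  induction s generalizing t with
  | nat n =>
    cases t with
    | nat m =>
      rcases Nat.lt_trichotomy n m with h | h | h
      · exact Or.inl h
      · exact Or.inr (Or.inl (by rw [h]))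
      · exact Or.inr (Or.inr h)
    | ord a => exact Or.inl trivial
    | pr t1 t2 => exact Or.inl trivial
  | ord a =>
    cases t with
    | nat m => exact Or.inr (Or.inr trivial)
    | ord b =>
      rcases lt_trichotomy a b with h | h | h
      · exact Or.inl h
      · exact Or.inr (Or.inl (by rw [h]))
      · exact Or.inr (Or.inr h)
    | pr t1 t2 => exact Or.inl trivial
  | pr s1 s2 ih1 ih2 =>
    cases t with
    | nat m => exact Or.inr (Or.inr trivial)
    | ord b => exact Or.inr (Or.inr trivial)
    | pr t1 t2 =>
      rw [lt_pr_iff, lt_pr_iff]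
      rcases Nat.lt_trichotomy (Tr.pr s1 s2).height (Tr.pr t1 t2).height with h | h | h
      · exact Or.inl (Or.inl h)
      · rcases ih1 t1 with h1 | h1 | h1
        · exact Or.inl (Or.inr ⟨h, Or.inl h1⟩)
        · rcases ih2 t2 with h2 | h2 | h2
          · exact Or.inl (Or.inr ⟨h, Or.inr ⟨h1, h2⟩⟩)
          · exact Or.inr (Or.inl (by rw [h1, h2]))
          · exact Or.inr (Or.inr (Or.inr ⟨h.symm, Or.inr ⟨h1.symm, h2⟩⟩))
        · exact Or.inr (Or.inr (Or.inr ⟨h.symm, Or.inl h1⟩))
      · exact Or.inr (Or.inr (Or.inl h))

theorem thm : G_LTO.{u} := by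
  intro L _
  exact ⟨irrefl, fun _ _ _ h1 h2 => trans h1 h2, tri⟩

end PkLTO

namespace PkLTW

open PkHLE

variable {L : Type u} [LinearOrder L] [WellFoundedLT L]

theorem acc_nat (n : ℕ) : Acc (Tr.lt : Tr L → Tr L → Prop) (.nat n) := by
  induction n using Nat.strong_induction_on with
  | _ n ih =>
    refine Acc.intro _ fun s hs => ?_
    cases s with
    | nat m => exact ih m hs
    | ord a => exact hs.elim
    | pr s1 s2 => exact hs.elim

theorem acc_ord (a : L) : Acc (Tr.lt : Tr L → Tr L → Prop) (.ord a) := by
  induction a using WellFoundedLT.induction with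
  | _ a ih =>
    refine Acc.intro _ fun s hs => ?_
    cases s with
    | nat m => exact acc_nat m
    | ord b => exact ih b hs
    | pr s1 s2 => exact hs.elim

theorem acc_height (n : ℕ) : ∀ t : Tr L, t.height ≤ n → Acc (Tr.lt : Tr L → Tr L → Prop) t := by
  induction n with
  | zero =>
    intro t ht
    cases t with
    | nat m => exact acc_nat m
    | ord a => exact acc_ord a
    | pr s t => simp [Tr.height] at ht
  | succ n ih =>
    -- lexicographic induction on the components
    have key : ∀ s1 : Tr L, Acc (Tr.lt : Tr L → Tr L → Prop) s1 → ∀ s2 : Tr L,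
        Acc (Tr.lt : Tr L → Tr L → Prop) s2 → (Tr.pr s1 s2).height ≤ n + 1 →
        Acc (Tr.lt : Tr L → Tr L → Prop) (.pr s1 s2) := by
      intro s1 h1
      induction h1 with
      | intro s1 _ ih1 =>
        intro s2 h2
        induction h2 with
        | intro s2 hacc ih2 =>
          intro hh
          refine Acc.intro _ fun r hr => ?_
          cases r with
          | nat m => exact acc_nat m
          | ord a => exact acc_ord a
          | pr r1 r2 =>
            rcases (lt_pr_iff _ _ _ _).1 hr with h3 | ⟨h3, h4⟩
            · exact ih _ (by omega)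
            · have hr1 : r1.height ≤ n := by
                simp only [Tr.height] at h3 hh
                omega
              have hr2 : r2.height ≤ n := by
                simp only [Tr.height] at h3 hh
                omega
              rcases h4 with h4 | ⟨h4, h5⟩
              · exact ih1 r1 h4 r2 (ih r2 hr2) (by omega)
              · subst h4
                exact ih2 r2 h5 (by omega)
    intro t ht
    cases t with
    | nat m => exact acc_nat m
    | ord a => exact acc_ord a
    | pr s t =>
      apply key s _ t _ ht
      · apply ih
        simp only [Tr.height] at ht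
        omega
      · apply ih
        simp only [Tr.height] at ht
        omega

theorem thm : G_LTW.{u} := by
  intro L _ _
  exact ⟨fun t => acc_height t.height t le_rfl⟩

end PkLTW

end Pool.Agent.Helper17.OD
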