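import Pool.Agent.Helper17.OD.GoalsSO

set_option autoImplicit false

/-!
# Heights and the canonical order of trees (packets HLE, LTO, LTW)
-/

namespace Pool.Agent.Helper17.OD

universe u v

namespace PkHLE

variable {L : Type u}

theorem hle_iff (s t : Tr L) : s.hle t ↔ s.height ≤ t.height := by
  induction s generalizing t with
  | nat n => cases t <;> simp [Tr.hle, Tr.height]
  | ord a => cases t <;> simp [Tr.hle, Tr.height]
  | pr s1 s2 ih1 ih2 =>
    cases t with
    | nat n => simp [Tr.hle, Tr.height]
    | ord a => simp [Tr.hle, Tr.height]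
    | pr t1 t2 =>
      simp only [Tr.hle, Tr.height, ih1, ih2]
      omega

variable [LinearOrder L]

theorem lt_pr_iff (s1 s2 t1 t2 : Tr L) : (Tr.pr s1 s2).lt (.pr t1 t2) ↔
    (Tr.pr s1 s2).height < (Tr.pr t1 t2).height ∨
      ((Tr.pr s1 s2).height = (Tr.pr t1 t2).height ∧ (s1.lt t1 ∨ (s1 = t1 ∧ s2.lt t2))) := by
  rw [Tr.lt, hle_iff, hle_iff]
  constructor
  · rintro (h | ⟨h1, h2⟩)
    · exact Or.inl (not_le.1 h)
    · rcases h1.lt_or_eq with h3 | h3
      · exact Or.inl h3
      · exact Or.inr ⟨h3, h2⟩
  · rintro (h | ⟨h1, h2⟩)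
    · exact Or.inl (not_le.2 h)
    · exact Or.inr ⟨h1.le, h2⟩

theorem lt_of_height {s t : Tr L} (h : s.height < t.height) : s.lt t := by
  cases s with
  | nat n =>
    cases t with
    | nat m => simp [Tr.height] at h
    | ord a => simp [Tr.height] at h
    | pr t1 t2 => trivial
  | ord a =>
    cases t with
    | nat m => simp [Tr.height] at h
    | ord a => simp [Tr.height] at h
    | pr t1 t2 => trivial
  | pr s1 s2 =>
    cases t with
    | nat m => simp [Tr.height] at h
    | ord a => simp [Tr.height] at h
    | pr t1 t2 => exact (lt_pr_iff _ _ _ _).2 (Or.inl h)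

theorem height_le_of_lt {s t : Tr L} (h : s.lt t) : s.height ≤ t.height := by
  cases s with
  | nat n => simp [Tr.height]
  | ord a => simp [Tr.height]
  | pr s1 s2 =>
    cases t with
    | nat m => exact h.elim
    | ord a => exact h.elim
    | pr t1 t2 =>
      rcases (lt_pr_iff _ _ _ _).1 h with h1 | h1
      · exact h1.le
      · exact h1.1.le

theorem not_lt_zero (s : Tr L) : ¬ s.lt (.nat 0) := by
  cases s with
  | nat n => exact Nat.not_lt_zero n
  | ord a => exact fun h => h
  | pr s1 s2 => exact fun h => h

theorem zero_lt {s : Tr L} (h : s ≠ .nat 0) : (Tr.nat 0).lt s := by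
  cases s with
  | nat n =>
    cases n with
    | zero => exact absurd rfl h
    | succ n => exact Nat.succ_pos n
  | ord a => trivial
  | pr s1 s2 => trivial

theorem height_map {L : Type u} {L' : Type v} (f : L → L') (t : Tr L) :
    (t.map f).height = t.height := by
  induction t with
  | nat n => rfl
  | ord a => rfl
  | pr s t ih1 ih2 => simp only [Tr.map, Tr.height, ih1, ih2]

/-- A code of large height. -/
def big : ℕ → Code
  | 0 => .nat 0
  | n + 1 => .pr (big n) (.nat 0)

theorem height_big (n : ℕ) : (big n).height = n := by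
  induction n with
  | zero => rfl
  | succ n ih => simp [big, Tr.height, ih]

theorem thm : G_HLE.{u} := by
  intro L _
  refine ⟨hle_iff, fun s t h => lt_of_height h, fun s t h => height_le_of_lt h, ?_, not_lt_zero,
    fun s h => zero_lt h, ?_⟩
  · intro s t
    constructor
    · apply lt_of_height
      simp only [Tr.height]
      omega
    · apply lt_of_height
      simp only [Tr.height]
      omega
  · intro s
    refine ⟨big (s.height + 1), lt_of_height ?_⟩
    unfold Tr.ofCode
    rw [height_map, height_big]
    omega

end PkHLE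

end Pool.Agent.Helper17.OD
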